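import Mathlib

set_option autoImplicit false

/-!
For a set `E` of integers of upper Banach density zero there is a subset of almost full upper
relative density whose difference set misses arbitrarily long intervals.
-/

open Filter Set

namespace Pool.Agent.Helper368_SD

/-- The elements `e ≤ N` of `E` with an element of `E` at a distance in `[R, R + H)` below. -/
def bad (E : Set ℕ) (R H N : ℕ) : Set ℕ :=
  {e | e ∈ E ∩ Icc 1 N ∧ ∃ e' ∈ E, e' + R ≤ e ∧ e < e' + R + H}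

theorem fin_cut (E : Set ℕ) (N : ℕ) : (E ∩ Icc 1 N).Finite := (finite_Icc 1 N).inter_of_right E

theorem bad_fin (E : Set ℕ) (R H N : ℕ) : (bad E R H N).Finite :=
  (fin_cut E N).subset fun _ h => h.1

/-- The number of the shifts for which a fixed element is bad. -/
theorem shifts (E : Set ℕ) (K H m e : ℕ) (hH : 0 < H) (S : Finset ℕ)
    (hS : ∀ i ∈ S, i < m ∧ ∃ e' ∈ E, e' + (K + H * i) ≤ e ∧ e < e' + (K + H * i) + H) :
    S.card ≤ (E ∩ Ico (e + 1 - K - H * m) (e + 1 - K - H * m + H * m)).ncard := by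
  classical
  have hfin : (E ∩ Ico (e + 1 - K - H * m) (e + 1 - K - H * m + H * m)).Finite :=
    (finite_Ico _ _).inter_of_right E
  rw [ncard_eq_toFinset_card _ hfin]
  have hsub : S ⊆ hfin.toFinset.image (fun e' => (e - K - e') / H) := by
    intro i hi
    obtain ⟨him, e', he', h1, h2⟩ := hS i hi
    have h3 : H * i + H ≤ H * m := by
      have : H * (i + 1) ≤ H * m := Nat.mul_le_mul_left H him
      rw [Nat.mul_add, Nat.mul_one] at this
      exact this
    rw [Finset.mem_image]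
    refine ⟨e', ?_, ?_⟩
    · rw [Finite.mem_toFinset]
      refine ⟨he', ?_, ?_⟩
      · omega
      · omega
    · apply Nat.div_eq_of_lt_le
      · rw [Nat.mul_comm]; omega
      · rw [Nat.mul_comm, Nat.mul_add, Nat.mul_one]; omega
  exact (Finset.card_le_card hsub).trans Finset.card_image_le

theorem avg (E : Set ℕ)
    (h0 : ∀ η : ℝ, 0 < η → ∃ L : ℕ, 0 < L ∧ ∀ M n : ℕ, L ≤ n →
      ((E ∩ Ico M (M + n)).ncard : ℝ) ≤ η * n)
    (K H : ℕ) (hH : 0 < H) (δ : ℝ) (hδ : 0 < δ) :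
    ∃ m : ℕ, ∀ N : ℕ, ∃ i, i < m ∧
      ((bad E (K + H * i) H N).ncard : ℝ) ≤ δ * (E ∩ Icc 1 N).ncard := by
  classical
  have hHr : (0 : ℝ) < H := by exact_mod_cast hH
  obtain ⟨L, hL, hd⟩ := h0 (δ / H) (by positivity)
  refine ⟨L, fun N => ?_⟩
  by_contra hcon
  push Not at hcon
  set F : Finset ℕ := (fin_cut E N).toFinset with hF
  have hFc : (E ∩ Icc 1 N).ncard = F.card := ncard_eq_toFinset_card _ (fin_cut E N)
  let P : ℕ → ℕ → Prop := fun e i => ∃ e' ∈ E, e' + (K + H * i) ≤ e ∧ e < e' + (K + H * i) + H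
  have hbad : ∀ i, (bad E (K + H * i) H N).ncard = (F.filter fun e => P e i).card := by
    intro i
    rw [ncard_eq_toFinset_card _ (bad_fin E (K + H * i) H N)]
    congr 1
    ext e
    simp only [Finite.mem_toFinset, Finset.mem_filter, hF, bad, P, Set.mem_ofPred_eq]
  have hsum : ∑ i ∈ Finset.range L, (F.filter fun e => P e i).card
      = ∑ e ∈ F, ((Finset.range L).filter fun i => P e i).card := by
    simp_rw [Finset.card_filter]
    exact Finset.sum_comm
  have hup : ∀ e ∈ F, ((((Finset.range L).filter fun i => P e i).card : ℕ) : ℝ) ≤ δ * L := by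
    intro e _
    have h1 := shifts E K H L e hH ((Finset.range L).filter fun i => P e i) (by
      intro i hi
      rw [Finset.mem_filter, Finset.mem_range] at hi
      exact hi)
    have h2 := hd (e + 1 - K - H * L) (H * L) (Nat.le_mul_of_pos_left L hH)
    have h3 : δ / H * ((H * L : ℕ) : ℝ) = δ * L := by
      push_cast
      field_simp
    rw [h3] at h2
    exact (Nat.cast_le.2 h1).trans h2
  have hlow : (L : ℝ) * (δ * F.card) < ((∑ i ∈ Finset.range L,
      (F.filter fun e => P e i).card : ℕ) : ℝ) := by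
    push_cast
    have h1 : ∑ i ∈ Finset.range L, (δ * (F.card : ℝ)) = (L : ℝ) * (δ * F.card) := by
      rw [Finset.sum_const, Finset.card_range, nsmul_eq_mul]
    rw [← h1]
    apply Finset.sum_lt_sum_of_nonempty ⟨0, Finset.mem_range.2 hL⟩
    intro i hi
    have h2 := hcon i (Finset.mem_range.1 hi)
    rw [hFc, hbad i] at h2
    exact h2
  rw [hsum] at hlow
  push_cast at hlow
  have h4 : ∑ e ∈ F, ((((Finset.range L).filter fun i => P e i).card : ℕ) : ℝ)
      ≤ ∑ _e ∈ F, δ * (L : ℝ) := Finset.sum_le_sum hup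
  rw [Finset.sum_const, nsmul_eq_mul] at h4
  nlinarith

/-- The shift for almost all `N` along an ultrafilter. -/
theorem good_shift (E : Set ℕ)
    (h0 : ∀ η : ℝ, 0 < η → ∃ L : ℕ, 0 < L ∧ ∀ M n : ℕ, L ≤ n →
      ((E ∩ Ico M (M + n)).ncard : ℝ) ≤ η * n)
    (K H : ℕ) (hH : 0 < H) (δ : ℝ) (hδ : 0 < δ) :
    ∃ R : ℕ, K ≤ R ∧ {N : ℕ | ((bad E R H N).ncard : ℝ) ≤ δ * (E ∩ Icc 1 N).ncard}
      ∈ (hyperfilter ℕ : Ultrafilter ℕ) := by
  obtain ⟨m, hm⟩ := avg E h0 K H hH δ hδ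
  have h1 : (⋃ i ∈ Iio m, {N : ℕ | ((bad E (K + H * i) H N).ncard : ℝ)
      ≤ δ * (E ∩ Icc 1 N).ncard}) ∈ (hyperfilter ℕ : Ultrafilter ℕ) := by
    have h2 : (⋃ i ∈ Iio m, {N : ℕ | ((bad E (K + H * i) H N).ncard : ℝ)
      ≤ δ * (E ∩ Icc 1 N).ncard}) = univ := by
      apply eq_univ_of_forall
      intro N
      obtain ⟨i, hi, hiN⟩ := hm N
      exact mem_biUnion (show i ∈ Iio m from hi) hiN
    rw [h2]
    exact Filter.univ_mem
  rw [Ultrafilter.finite_biUnion_mem_iff (finite_Iio m)] at h1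
  obtain ⟨i, _, hi⟩ := h1
  exact ⟨K + H * i, Nat.le_add_right _ _, hi⟩

/-- The states of the construction: a set of the ultrafilter, a position and a shift. -/
abbrev State : Type := {p : Set ℕ × ℕ × ℕ // p.1 ∈ (hyperfilter ℕ : Ultrafilter ℕ)}

theorem step (E : Set ℕ)
    (h0 : ∀ η : ℝ, 0 < η → ∃ L : ℕ, 0 < L ∧ ∀ M n : ℕ, L ≤ n →
      ((E ∩ Ico M (M + n)).ncard : ℝ) ≤ η * n)
    (ε : ℝ) (hε : 0 < ε) (j : ℕ) (s : State) :
    ∃ t : State, t.1.1 ⊆ s.1.1 ∧
      (∀ N ∈ t.1.1, ((bad E t.1.2.2 (j + 1) N).ncard : ℝ)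
        ≤ ε / 2 ^ (j + 1) * (E ∩ Icc 1 N).ncard) ∧
      t.1.2.1 ∈ t.1.1 ∧ s.1.2.1 < t.1.2.1 ∧ s.1.2.1 < t.1.2.2 := by
  obtain ⟨R, hR, hRm⟩ := good_shift E h0 (s.1.2.1 + 1) (j + 1) (Nat.succ_pos j)
    (ε / 2 ^ (j + 1)) (by positivity)
  have h1 := Filter.inter_mem s.2 hRm
  have h2 : Ioi s.1.2.1 ∈ (hyperfilter ℕ : Ultrafilter ℕ) := by
    apply mem_hyperfilter_of_finite_compl
    rw [compl_Ioi]
    exact finite_Iic _
  have h3 := Filter.inter_mem h1 h2
  obtain ⟨n, hn1, hn2⟩ := (hyperfilter ℕ : Ultrafilter ℕ).nonempty_of_mem h3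
  refine ⟨⟨(s.1.1 ∩ {N : ℕ | ((bad E R (j + 1) N).ncard : ℝ)
    ≤ ε / 2 ^ (j + 1) * (E ∩ Icc 1 N).ncard}, n, R), h1⟩, ?_, ?_, hn1, hn2, hR⟩
  · exact inter_subset_left
  · intro N hN
    exact hN.2

theorem core (E : Set ℕ)
    (h0 : ∀ η : ℝ, 0 < η → ∃ L : ℕ, 0 < L ∧ ∀ M n : ℕ, L ≤ n →
      ((E ∩ Ico M (M + n)).ncard : ℝ) ≤ η * n)
    (ε : ℝ) (hε : 0 < ε) :
    ∃ A ⊆ E, ∃ R : ℕ → ℕ, (∀ j, 0 < R j) ∧
      (∀ j, ∀ a ∈ A, ∀ a' ∈ A, ¬ (a' + R j ≤ a ∧ a < a' + R j + (j + 1))) ∧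
      (∃ᶠ N in atTop, (1 - ε) * ((E ∩ Icc 1 N).ncard : ℝ) ≤ (A ∩ Icc 1 N).ncard) := by
  classical
  choose f hf using step E h0 ε hε
  let s0 : State := ⟨(univ, 0, 0), Filter.univ_mem⟩
  let sq : ℕ → State := fun n => Nat.rec s0 (fun j s => f j s) n
  have hsq : ∀ j, sq (j + 1) = f j (sq j) := fun j => rfl
  set n : ℕ → ℕ := fun j => (sq j).1.2.1 with hn
  set S : ℕ → Set ℕ := fun j => (sq j).1.1 with hS
  set R : ℕ → ℕ := fun j => (sq (j + 1)).1.2.2 with hR
  have hSS : ∀ j, S (j + 1) ⊆ S j := by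
    intro j
    have := (hf j (sq j)).1
    rw [← hsq] at this
    exact this
  have hgood : ∀ j, ∀ N ∈ S (j + 1), ((bad E (R j) (j + 1) N).ncard : ℝ)
      ≤ ε / 2 ^ (j + 1) * (E ∩ Icc 1 N).ncard := by
    intro j
    have := (hf j (sq j)).2.1
    rw [← hsq] at this
    exact this
  have hnS : ∀ j, n (j + 1) ∈ S (j + 1) := by
    intro j
    have := (hf j (sq j)).2.2.1
    rw [← hsq] at this
    exact this
  have hnlt : ∀ j, n j < n (j + 1) := by
    intro j
    have := (hf j (sq j)).2.2.2.1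
    rw [← hsq] at this
    exact this
  have hRlt : ∀ j, n j < R j := by
    intro j
    have := (hf j (sq j)).2.2.2.2
    rw [← hsq] at this
    exact this
  have hmono : StrictMono n := strictMono_nat_of_lt_succ hnlt
  have hanti : Antitone S := antitone_nat_of_succ_le hSS
  refine ⟨{e | e ∈ E ∧ ∀ j, ∀ e' ∈ E, ¬ (e' + R j ≤ e ∧ e < e' + R j + (j + 1))},
    fun e he => he.1, R, fun j => (Nat.zero_le _).trans_lt (hRlt j), ?_, ?_⟩
  · intro j a ha a' ha'
    exact ha.2 j a' ha'.1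
  · rw [frequently_atTop]
    intro N0
    obtain ⟨i, hi⟩ : ∃ i, N0 ≤ n (i + 1) := ⟨N0, (Nat.le_succ N0).trans (hmono.id_le (N0 + 1))⟩
    refine ⟨n (i + 1), hi, ?_⟩
    set N := n (i + 1) with hN
    set A : Set ℕ := {e | e ∈ E ∧ ∀ j, ∀ e' ∈ E, ¬ (e' + R j ≤ e ∧ e < e' + R j + (j + 1))}
      with hA
    have hcov : E ∩ Icc 1 N ⊆ (A ∩ Icc 1 N) ∪ ⋃ j ∈ Finset.range (i + 1), bad E (R j) (j + 1) N := by
      intro e he
      by_cases h : ∀ j, ∀ e' ∈ E, ¬ (e' + R j ≤ e ∧ e < e' + R j + (j + 1))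
      · exact Or.inl ⟨⟨he.1, h⟩, he.2⟩
      · right
        push Not at h
        obtain ⟨j, e', he', h1, h2⟩ := h
        have hj : j < i + 1 := by
          by_contra hcon
          have h3 : n (i + 1) ≤ n j := hmono.monotone (Nat.le_of_not_lt hcon)
          have h4 := hRlt j
          have h5 : e ≤ N := he.2.2
          omega
        exact mem_biUnion (Finset.mem_coe.2 (Finset.mem_range.2 hj)) ⟨he, e', he', h1, h2⟩
    have hfinU : (⋃ j ∈ Finset.range (i + 1), bad E (R j) (j + 1) N).Finite :=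
      (Finset.range (i + 1)).finite_toSet.biUnion fun j _ => bad_fin E (R j) (j + 1) N
    have hc1 : (E ∩ Icc 1 N).ncard ≤ (A ∩ Icc 1 N).ncard +
        ∑ j ∈ Finset.range (i + 1), (bad E (R j) (j + 1) N).ncard := by
      refine (ncard_le_ncard hcov ((fin_cut A N).union hfinU)).trans
        ((ncard_union_le _ _).trans (Nat.add_le_add_left ?_ _))
      exact Finset.set_ncard_biUnion_le _ _
    have hc2 : ∀ j ∈ Finset.range (i + 1), ((bad E (R j) (j + 1) N).ncard : ℝ)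
        ≤ ε * (E ∩ Icc 1 N).ncard * (1 / 2) ^ (j + 1) := by
      intro j hj
      have h1 : N ∈ S (j + 1) :=
        hanti (Nat.succ_le_succ (Nat.lt_succ_iff.1 (Finset.mem_range.1 hj))) (hnS i)
      have h2 := hgood j N h1
      refine h2.trans (le_of_eq ?_)
      rw [one_div, inv_pow]
      ring
    have hc3 : ∑ j ∈ Finset.range (i + 1), ((bad E (R j) (j + 1) N).ncard : ℝ)
        ≤ ε * (E ∩ Icc 1 N).ncard := by
      refine (Finset.sum_le_sum hc2).trans ?_
      rw [← Finset.mul_sum]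
      have h1 : ∑ j ∈ Finset.range (i + 1), (1 / 2 : ℝ) ^ (j + 1) ≤ 1 := by
        have h2 : ∀ k : ℕ, ∑ j ∈ Finset.range k, (1 / 2 : ℝ) ^ (j + 1) = 1 - (1 / 2) ^ k := by
          intro k
          induction k with
          | zero => simp
          | succ k ih => rw [Finset.sum_range_succ, ih, pow_succ]; ring
        rw [h2]
        have : (0 : ℝ) ≤ (1 / 2) ^ (i + 1) := by positivity
        linarith
      exact mul_le_of_le_one_right (by positivity) h1
    have hc4 : ((E ∩ Icc 1 N).ncard : ℝ) ≤ (A ∩ Icc 1 N).ncard +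
        ∑ j ∈ Finset.range (i + 1), ((bad E (R j) (j + 1) N).ncard : ℝ) := by
      exact_mod_cast hc1
    linarith

end Pool.Agent.Helper368_SD
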